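import Pool.Agent.Helper81.XP.StB

set_option autoImplicit false

/-! Module L2A: decay from ping-pong. -/

open Finset

namespace Pool.Agent.Helper44.XP

open Pool.Agent.Helper81.XP

/-! ### the abstract part -/

/-- a symmetric operator with small numerical range has small norm -/
theorem l2a_norm {H : Type} [NormedAddCommGroup H] [InnerProductSpace ℝ H] (T : H →ₗ[ℝ] H)
    (hs : ∀ f g : H, inner ℝ (T f) g = inner ℝ f (T g)) (q : ℝ)
    (h1 : ∀ f : H, inner ℝ (T f) f ≤ q * ‖f‖ ^ 2)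
    (h2 : ∀ f : H, -(q * ‖f‖ ^ 2) ≤ inner ℝ (T f) f) (f : H) : ‖T f‖ ≤ q * ‖f‖ := by
  have key : ∀ f g : H, 4 * inner ℝ (T f) g ≤ q * (2 * (‖f‖ ^ 2 + ‖g‖ ^ 2)) := by
    intro f g
    have e1 := h1 (f + g)
    have e2 := h2 (f - g)
    have e3 : inner ℝ (T (f + g)) (f + g) - inner ℝ (T (f - g)) (f - g)
        = 4 * inner ℝ (T f) g := by
      rw [map_add, map_sub]
      simp only [inner_add_left, inner_add_right, inner_sub_left, inner_sub_right]
      have : inner ℝ (T g) f = inner ℝ (T f) g := by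
        rw [hs g f, real_inner_comm]
      rw [this]
      ring
    have e4 : ‖f + g‖ ^ 2 + ‖f - g‖ ^ 2 = 2 * (‖f‖ ^ 2 + ‖g‖ ^ 2) := by
      have := parallelogram_law_with_norm ℝ f g
      nlinarith
    rw [← e3, ← e4]
    linarith
  rcases eq_or_ne (T f) 0 with h0 | h0
  · rw [h0, norm_zero]
    have h3 := h1 f
    have h4 := h2 f
    rcases eq_or_ne f 0 with hf | hf
    · rw [hf, norm_zero, mul_zero]
    · have hp : 0 < ‖f‖ := norm_pos_iff.2 hf
      have h5 : 0 ≤ q * ‖f‖ ^ 2 := by linarith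
      have h6 : 0 ≤ q := by
        by_contra hq
        have : q * ‖f‖ ^ 2 < 0 := mul_neg_of_neg_of_pos (not_le.1 hq) (by positivity)
        linarith
      positivity
  · have hk : 0 < ‖T f‖ := norm_pos_iff.2 h0
    have hf : 0 < ‖f‖ := by
      rw [norm_pos_iff]
      rintro rfl
      exact h0 (map_zero T)
    have h3 := key f ((‖f‖ / ‖T f‖) • T f)
    rw [real_inner_smul_right, real_inner_self_eq_norm_sq, norm_smul, Real.norm_eq_abs,
      abs_of_pos (by positivity : 0 < ‖f‖ / ‖T f‖)] at h3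
    have h4 : ‖f‖ / ‖T f‖ * ‖T f‖ ^ 2 = ‖f‖ * ‖T f‖ := by
      field_simp
    have h5 : ‖f‖ / ‖T f‖ * ‖T f‖ = ‖f‖ := by
      field_simp
    rw [h4, h5] at h3
    have h6 : ‖f‖ * ‖T f‖ ≤ ‖f‖ * (q * ‖f‖) := by nlinarith
    exact le_of_mul_le_mul_left h6 hf

/-! ### translations on square summable functions -/

/-- square summable functions -/
abbrev HY (Y : Type) : Type := lp (fun _ : Y => ℝ) 2

section act

variable {Γ : Type} [Group Γ] {Y : Type} [MulAction Γ Y]

/-- translation -/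
noncomputable def U (g : Γ) : HY Y →ₗ[ℝ] HY Y where
  toFun f := ⟨fun y => f (g⁻¹ • y), by
    have h2 : (0 : ℝ) < (2 : ENNReal).toReal := by norm_num
    have h := lp.memℓp f
    change Memℓp (fun y => f (g⁻¹ • y)) 2
    rw [memℓp_gen_iff h2] at h ⊢
    exact ((MulAction.toPerm g⁻¹ : Equiv.Perm Y).summable_iff).2 h⟩
  map_add' f h := by
    ext y
    rfl
  map_smul' c f := by
    ext y
    rfl

theorem U_apply (g : Γ) (f : HY Y) (y : Y) : U g f y = f (g⁻¹ • y) := rfl

theorem U_one (f : HY Y) : U (1 : Γ) f = f := by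
  ext y
  rw [U_apply, inv_one, one_smul]

theorem U_mul (g h : Γ) (f : HY Y) : U (g * h) f = U g (U h f) := by
  ext y
  rw [U_apply, U_apply, U_apply, mul_inv_rev, mul_smul]

theorem U_inner (g : Γ) (f h : HY Y) : inner ℝ (U g f) h = inner ℝ f (U g⁻¹ h) := by
  rw [lp.inner_eq_tsum, lp.inner_eq_tsum,
    ← (MulAction.toPerm g : Equiv.Perm Y).tsum_eq (fun y => inner ℝ (U g f y) (h y))]
  refine tsum_congr fun y => ?_
  rw [U_apply, U_apply, MulAction.toPerm_apply, inv_smul_smul, inv_inv]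

theorem U_norm (g : Γ) (f : HY Y) : ‖U g f‖ = ‖f‖ := by
  have h1 : inner ℝ (U g f) (U g f) = inner ℝ f f := by
    rw [U_inner, ← U_mul, inv_mul_cancel, U_one]
  rw [real_inner_self_eq_norm_sq, real_inner_self_eq_norm_sq] at h1
  exact (sq_eq_sq₀ (norm_nonneg _) (norm_nonneg _)).1 h1

theorem HY_norm (f : HY Y) : ‖f‖ ^ 2 = ∑' y, f y ^ 2 := by
  rw [← real_inner_self_eq_norm_sq, lp.inner_eq_tsum]
  refine tsum_congr fun y => ?_
  rw [real_inner_self_eq_norm_sq, Real.norm_eq_abs, sq_abs]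

theorem HY_sum (f : HY Y) : Summable fun y => f y ^ 2 := by
  have h := lp.summable_inner (𝕜 := ℝ) f f
  refine h.congr fun y => ?_
  rw [real_inner_self_eq_norm_sq, Real.norm_eq_abs, sq_abs]

/-- one half of the ping-pong estimate -/
theorem l2a_half (g : Γ) (U1 U2 : Set Y) (hg : ∀ y, y ∉ U2 → g • y ∈ U1) (f : HY Y)
    (hf : ‖U g f - f‖ ^ 2 ≤ ‖f‖ ^ 2 / 16) :
    ‖f‖ ^ 2 - ∑' y, U2.indicator (fun y => f y ^ 2) y
      ≤ 5 / 4 * (∑' y, U1.indicator (fun y => f y ^ 2) y) + 5 / 16 * ‖f‖ ^ 2 := by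
  have hs := HY_sum f
  have hs1 : Summable (U1.indicator fun y => f y ^ 2) := hs.indicator _
  have hs2 : Summable (U2.indicator fun y => f y ^ 2) := hs.indicator _
  have hsg := HY_sum (U g f)
  have hsg1 : Summable (U1.indicator fun y => (U g f) y ^ 2) := hsg.indicator _
  have hsd := HY_sum (U g f - f)
  -- step 1
  have h1 : ‖f‖ ^ 2 - ∑' y, U2.indicator (fun y => f y ^ 2) y
      ≤ ∑' y, U1.indicator (fun y => (U g f) y ^ 2) y := by
    rw [HY_norm, ← hs.tsum_sub hs2,
      ← (MulAction.toPerm g : Equiv.Perm Y).tsum_eq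
        (fun y => U1.indicator (fun y => (U g f) y ^ 2) y)]
    refine Summable.tsum_le_tsum (fun y => ?_) (hs.sub hs2)
      (((MulAction.toPerm g : Equiv.Perm Y).summable_iff).2 hsg1)
    show f y ^ 2 - U2.indicator (fun y => f y ^ 2) y
      ≤ U1.indicator (fun y => (U g f) y ^ 2) (g • y)
    by_cases hy : y ∈ U2
    · rw [Set.indicator_of_mem hy, sub_self]
      exact Set.indicator_nonneg (fun _ _ => sq_nonneg _) _
    · rw [Set.indicator_of_notMem hy, Set.indicator_of_mem (hg y hy), sub_zero, U_apply,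
        inv_smul_smul]
  -- step 2
  have h2 : ∑' y, U1.indicator (fun y => (U g f) y ^ 2) y
      ≤ 5 / 4 * (∑' y, U1.indicator (fun y => f y ^ 2) y) + 5 * ‖U g f - f‖ ^ 2 := by
    rw [HY_norm (U g f - f), ← tsum_mul_left, ← tsum_mul_left,
      ← (hs1.mul_left (5 / 4)).tsum_add (hsd.mul_left 5)]
    refine Summable.tsum_le_tsum (fun y => ?_) hsg1 ((hs1.mul_left _).add (hsd.mul_left _))
    have h3 : (U g f - f) y = U g f y - f y := rfl
    by_cases hy : y ∈ U1
    · rw [Set.indicator_of_mem hy, Set.indicator_of_mem hy, h3]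
      nlinarith [sq_nonneg (f y - 4 * (U g f y - f y))]
    · rw [Set.indicator_of_notMem hy, Set.indicator_of_notMem hy, mul_zero, zero_add]
      positivity
  linarith

/-- the ping-pong estimate -/
theorem l2a_pp (g h : Γ) (hp : P4 Y g h) (f : HY Y) :
    ‖f‖ ^ 2 / 16 ≤ max (‖U g f - f‖ ^ 2) (‖U h f - f‖ ^ 2) := by
  by_contra hcon
  rw [not_le, max_lt_iff] at hcon
  obtain ⟨hg, hh⟩ := hcon
  obtain ⟨U1, U2, U3, U4, d12, d13, d14, d23, d24, d34, g1, g2, g3, g4⟩ := hp
  have e1 := l2a_half g U1 U2 g1 f hg.le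
  have e2 := l2a_half h U3 U4 g3 f hh.le
  have hs := HY_sum f
  have hpos : 0 < ‖f‖ ^ 2 := by
    have : 0 ≤ ‖U g f - f‖ ^ 2 := sq_nonneg _
    linarith
  have h0 : ∀ V : Set Y, 0 ≤ ∑' y, V.indicator (fun y => f y ^ 2) y := fun V =>
    tsum_nonneg fun y => Set.indicator_nonneg (fun _ _ => sq_nonneg _) _
  have e3 : (∑' y, U1.indicator (fun y => f y ^ 2) y) + (∑' y, U2.indicator (fun y => f y ^ 2) y)
      + (∑' y, U3.indicator (fun y => f y ^ 2) y) + (∑' y, U4.indicator (fun y => f y ^ 2) y)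
      ≤ ‖f‖ ^ 2 := by
    rw [HY_norm, ← (hs.indicator U1).tsum_add (hs.indicator U2),
      ← ((hs.indicator U1).add (hs.indicator U2)).tsum_add (hs.indicator U3),
      ← (((hs.indicator U1).add (hs.indicator U2)).add (hs.indicator U3)).tsum_add
        (hs.indicator U4)]
    refine Summable.tsum_le_tsum (fun y => ?_)
      ((((hs.indicator U1).add (hs.indicator U2)).add (hs.indicator U3)).add
        (hs.indicator U4)) hs
    rw [Set.disjoint_left] at d12 d13 d14 d23 d24 d34
    have hy0 : 0 ≤ f y ^ 2 := sq_nonneg _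
    by_cases m1 : y ∈ U1
    · rw [Set.indicator_of_mem m1, Set.indicator_of_notMem (d12 m1),
        Set.indicator_of_notMem (d13 m1), Set.indicator_of_notMem (d14 m1)]
      linarith
    · by_cases m2 : y ∈ U2
      · rw [Set.indicator_of_notMem m1, Set.indicator_of_mem m2,
          Set.indicator_of_notMem (d23 m2), Set.indicator_of_notMem (d24 m2)]
        linarith
      · by_cases m3 : y ∈ U3
        · rw [Set.indicator_of_notMem m1, Set.indicator_of_notMem m2,
            Set.indicator_of_mem m3, Set.indicator_of_notMem (d34 m3)]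
          linarith
        · rw [Set.indicator_of_notMem m1, Set.indicator_of_notMem m2,
            Set.indicator_of_notMem m3]
          have h4 : U4.indicator (fun y => f y ^ 2) y ≤ f y ^ 2 := by
            by_cases m4 : y ∈ U4
            · rw [Set.indicator_of_mem m4]
            · rw [Set.indicator_of_notMem m4]
              exact hy0
          linarith
  have z2 := h0 U2
  have z4 := h0 U4
  have z1 := h0 U1
  have z3 := h0 U3
  linarith

/-- words move a vector by at most the length times the maximal displacement -/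
theorem l2a_word (a b : Γ) (f : HY Y) (ω : ℝ) (ha : ‖U a f - f‖ ≤ ω) (hb : ‖U b f - f‖ ≤ ω) :
    ∀ (n : ℕ) (w : Fin n → Fin 5), ‖U (wd a b w) f - f‖ ≤ n * ω := by
  have hω : 0 ≤ ω := (norm_nonneg _).trans ha
  have hinv : ∀ g : Γ, ‖U g⁻¹ f - f‖ = ‖U g f - f‖ := by
    intro g
    have h1 : U g (U g⁻¹ f - f) = -(U g f - f) := by
      rw [map_sub, ← U_mul, mul_inv_cancel, U_one]
      abel
    rw [← U_norm g (U g⁻¹ f - f), h1, norm_neg]
  have hl : ∀ i : Fin 5, ‖U (lt a b i) f - f‖ ≤ ω := by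
    intro i
    fin_cases i
    · show ‖U (1 : Γ) f - f‖ ≤ ω
      rw [U_one, sub_self, norm_zero]
      exact hω
    · exact ha
    · show ‖U a⁻¹ f - f‖ ≤ ω
      rw [hinv]
      exact ha
    · exact hb
    · show ‖U b⁻¹ f - f‖ ≤ ω
      rw [hinv]
      exact hb
  intro n
  induction n with
  | zero =>
    intro w
    have : wd a b w = 1 := by
      unfold wd
      simp
    rw [this, U_one, sub_self, norm_zero]
    simp
  | succ n ih =>
    intro w
    have h1 : wd a b w = lt a b (w 0) * wd a b (fun i => w i.succ) := by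
      unfold wd
      rw [List.ofFn_succ, List.prod_cons]
    have h2 : U (wd a b w) f - f
        = U (lt a b (w 0)) (U (wd a b (fun i => w i.succ)) f - f)
          + (U (lt a b (w 0)) f - f) := by
      rw [h1, U_mul, map_sub]
      abel
    rw [h2]
    refine (norm_add_le _ _).trans ?_
    rw [U_norm]
    have h3 := ih (fun i => w i.succ)
    have h4 := hl (w 0)
    push_cast
    linarith

end act

theorem st_L2A : ST_L2A := by
  classical
  intro Γ _ Y _ a b L hL hPP n ξ ξ'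
  obtain ⟨g, h, ⟨wg, hwg⟩, ⟨wh, hwh⟩, hp⟩ := hPP
  have hL1 : (1 : ℝ) ≤ L := by exact_mod_cast hL
  set c : ℝ := 1 / (80 * (L : ℝ) ^ 2) with hc
  have hc1 : c ≤ 1 / 80 := by
    rw [hc]
    apply div_le_div_of_nonneg_left (by norm_num) (by norm_num)
    nlinarith
  have hc0 : 0 < c := by positivity
  -- the operator
  let T : HY Y →ₗ[ℝ] HY Y := (1 / 5 : ℝ) • ∑ i : Fin 5, U (lt a b i)
  have hT : ∀ f : HY Y, T f = (1 / 5 : ℝ) • ∑ i : Fin 5, U (lt a b i) f := by
    intro f
    show ((1 / 5 : ℝ) • ∑ i : Fin 5, U (lt a b i)) f = _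
    rw [LinearMap.smul_apply, LinearMap.sum_apply]
  have hT5 : ∀ f : HY Y, T f = (1 / 5 : ℝ) • (f + U a f + U a⁻¹ f + U b f + U b⁻¹ f) := by
    intro f
    rw [hT, Fin.sum_univ_five]
    have : U (lt a b 0) f = f := U_one f
    rw [this]
    rfl
  have hsym : ∀ f g : HY Y, inner ℝ (T f) g = inner ℝ f (T g) := by
    intro f g
    rw [hT5, hT5, real_inner_smul_left, real_inner_smul_right]
    simp only [inner_add_left, inner_add_right]
    rw [U_inner a f g, U_inner a⁻¹ f g, U_inner b f g, U_inner b⁻¹ f g, inv_inv, inv_inv]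
    ring
  have hcomm : ∀ (g : Γ) (f : HY Y), inner ℝ (U g⁻¹ f) f = inner ℝ (U g f) f := by
    intro g f
    rw [U_inner g⁻¹ f f, inv_inv, real_inner_comm]
  have hTf : ∀ f : HY Y, inner ℝ (T f) f
      = 1 / 5 * (‖f‖ ^ 2 + 2 * inner ℝ (U a f) f + 2 * inner ℝ (U b f) f) := by
    intro f
    rw [hT5, real_inner_smul_left]
    simp only [inner_add_left]
    rw [hcomm a f, hcomm b f, real_inner_self_eq_norm_sq]
    ring
  have hdist : ∀ (g : Γ) (f : HY Y), ‖U g f - f‖ ^ 2 = 2 * ‖f‖ ^ 2 - 2 * inner ℝ (U g f) f := by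
    intro g f
    rw [norm_sub_sq_real, U_norm]
    ring
  have hup : ∀ f : HY Y, inner ℝ (T f) f ≤ (1 - c) * ‖f‖ ^ 2 := by
    intro f
    have h1 := l2a_pp g h hp f
    set ω := max ‖U a f - f‖ ‖U b f - f‖ with hω
    have hω0 : 0 ≤ ω := (norm_nonneg _).trans (le_max_left _ _)
    have h2 : ‖U g f - f‖ ≤ L * ω := by
      rw [← hwg]
      exact l2a_word a b f ω (le_max_left _ _) (le_max_right _ _) L wg
    have h3 : ‖U h f - f‖ ≤ L * ω := by
      rw [← hwh]
      exact l2a_word a b f ω (le_max_left _ _) (le_max_right _ _) L wh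
    have h4 : ‖f‖ ^ 2 / 16 ≤ (L * ω) ^ 2 := by
      refine h1.trans (max_le ?_ ?_)
      · exact pow_le_pow_left₀ (norm_nonneg _) h2 2
      · exact pow_le_pow_left₀ (norm_nonneg _) h3 2
    have h5 : ω ^ 2 ≤ ‖U a f - f‖ ^ 2 + ‖U b f - f‖ ^ 2 := by
      rcases max_choice ‖U a f - f‖ ‖U b f - f‖ with hm | hm
      · rw [hω, hm]
        have := sq_nonneg ‖U b f - f‖
        linarith
      · rw [hω, hm]
        have := sq_nonneg ‖U a f - f‖
        linarith
    have h6 : inner ℝ (T f) f = ‖f‖ ^ 2 - 1 / 5 * (‖U a f - f‖ ^ 2 + ‖U b f - f‖ ^ 2) := by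
      rw [hTf, hdist, hdist]
      ring
    have h7 : c * ‖f‖ ^ 2 ≤ 1 / 5 * ω ^ 2 := by
      rw [hc, div_mul_eq_mul_div, one_mul, div_le_iff₀ (by positivity)]
      rw [mul_pow] at h4
      nlinarith
    rw [h6]
    linarith
  have hlow : ∀ f : HY Y, -((1 - c) * ‖f‖ ^ 2) ≤ inner ℝ (T f) f := by
    intro f
    have h1 : ∀ g : Γ, -(‖f‖ ^ 2) ≤ inner ℝ (U g f) f := by
      intro g
      have h2 := abs_real_inner_le_norm (U g f) f
      rw [U_norm] at h2
      have h3 := (abs_le.1 h2).1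
      nlinarith
    have h4 := h1 a
    have h5 := h1 b
    rw [hTf]
    have h6 : 0 ≤ ‖f‖ ^ 2 := sq_nonneg _
    nlinarith
  have hTn : ∀ f : HY Y, ‖T f‖ ≤ (1 - c) * ‖f‖ := l2a_norm T hsym (1 - c) hup hlow
  -- powers
  let δ : Y → HY Y := fun y => lp.single 2 y (1 : ℝ)
  have hUδ : ∀ (g : Γ) (y : Y), U g (δ y) = δ (g • y) := by
    intro g y
    ext z
    rw [U_apply]
    show (lp.single 2 y (1 : ℝ) : HY Y) (g⁻¹ • z) = (lp.single 2 (g • y) (1 : ℝ) : HY Y) z
    by_cases hz : z = g • y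
    · subst hz
      rw [inv_smul_smul, lp.single_apply_self, lp.single_apply_self]
    · rw [lp.single_apply_ne _ _ _ hz, lp.single_apply_ne]
      intro h
      apply hz
      rw [← h, smul_inv_smul]
  have hpow : ∀ k : ℕ, (T ^ k) (δ ξ)
      = ((1 / 5 : ℝ) ^ k) • ∑ w : Fin k → Fin 5, δ (wd a b w • ξ) := by
    intro k
    induction k with
    | zero =>
      have : ∀ w : Fin 0 → Fin 5, wd a b w = 1 := fun w => by unfold wd; simp
      simp [this]
    | succ k ih =>
      rw [pow_succ', Module.End.mul_apply, ih, map_smul, map_sum]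
      have h1 : ∀ w : Fin k → Fin 5, T (δ (wd a b w • ξ))
          = (1 / 5 : ℝ) • ∑ i : Fin 5, δ ((lt a b i * wd a b w) • ξ) := by
        intro w
        rw [hT]
        congr 1
        refine Finset.sum_congr rfl fun i _ => ?_
        rw [hUδ, mul_smul]
      rw [Finset.sum_congr rfl fun w _ => h1 w, ← Finset.smul_sum, smul_smul, ← pow_succ]
      congr 1
      rw [Finset.sum_comm, ← Fintype.sum_prod_type']
      refine Fintype.sum_equiv (Fin.consEquiv fun _ => Fin 5) _ _ fun x => ?_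
      congr 2
      show lt a b x.1 * wd a b x.2 = wd a b (Fin.cons x.1 x.2)
      unfold wd
      rw [List.ofFn_succ, List.prod_cons, Fin.cons_zero]
      simp only [Fin.cons_succ]
  have hnorm : ∀ k : ℕ, ‖(T ^ k) (δ ξ)‖ ≤ (1 - c) ^ k * ‖δ ξ‖ := by
    intro k
    induction k with
    | zero => simp
    | succ k ih =>
      rw [pow_succ', Module.End.mul_apply]
      refine (hTn _).trans ?_
      rw [pow_succ', mul_assoc]
      exact mul_le_mul_of_nonneg_left ih (by linarith)
  have hδn : ∀ y : Y, ‖δ y‖ = 1 := by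
    intro y
    have h1 : ‖δ y‖ = ‖(1 : ℝ)‖ := lp.norm_single (by norm_num) y 1
    rw [h1, norm_one]
  have hinner : ∀ y : Y, inner ℝ (δ y) (δ ξ') = if y = ξ' then (1 : ℝ) else 0 := by
    intro y
    have h1 : inner ℝ (δ y) (δ ξ') = inner ℝ (1 : ℝ) ((δ ξ' : HY Y) y) :=
      lp.inner_single_left y (1 : ℝ) (δ ξ')
    rw [h1]
    by_cases hy : y = ξ'
    · subst hy
      rw [if_pos rfl]
      have h2 : (δ y : HY Y) y = 1 := lp.single_apply_self _ _ _
      rw [h2]
      simp
    · rw [if_neg hy]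
      have h2 : (δ ξ' : HY Y) y = 0 := lp.single_apply_ne _ _ _ hy
      rw [h2]
      simp
  have hcard : (((univ : Finset (Fin n → Fin 5)).filter (fun w => wd a b w • ξ = ξ')).card : ℝ)
      = 5 ^ n * inner ℝ ((T ^ n) (δ ξ)) (δ ξ') := by
    rw [hpow, real_inner_smul_left, sum_inner, Finset.sum_congr rfl fun w _ => hinner _,
      ← Finset.sum_filter, Finset.sum_const, nsmul_eq_mul, mul_one, ← mul_assoc, ← mul_pow]
    norm_num
  have hle : inner ℝ ((T ^ n) (δ ξ)) (δ ξ') ≤ (1 - c) ^ n := by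
    have h1 := real_inner_le_norm ((T ^ n) (δ ξ)) (δ ξ')
    have h2 := hnorm n
    rw [hδn, mul_one] at h1 h2
    exact h1.trans h2
  have hgoal : (((univ : Finset (Fin n → Fin 5)).filter (fun w => wd a b w • ξ = ξ')).card : ℝ)
      ≤ (1 - c) ^ n * 5 ^ n := by
    rw [hcard, mul_comm]
    exact mul_le_mul_of_nonneg_right hle (by positivity)
  exact hgoal

end Pool.Agent.Helper44.XP
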